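import Pool.Agent.Helper43.EV.Goals

/-! Packet EV-PIB (MP_d4e2f9_lc): the intersection with `ker ψ`. -/

set_option autoImplicit false

namespace Pool.Agent.Helper23.EV.PIB

open Module Pool.Agent.Helper43.EV
open Pool.Agent.Helper3.QGr (prj prj_coe prj_mem finrank_comap)

section

variable {F V : Type} [Field F] [AddCommGroup V] [Module F V] (ψ : Dual F V)

theorem comap_map (g : V ≃ₗ[F] V) (g0 : LinearMap.ker ψ ≃ₗ[F] LinearMap.ker ψ)
    (h1 : ∀ x, ψ (g x) = ψ x) (h2 : ∀ x : LinearMap.ker ψ, g (x : V) = (g0 x : V))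
    (A : Submodule F V) :
    (A.map (g : V →ₗ[F] V)).comap (LinearMap.ker ψ).subtype =
      (A.comap (LinearMap.ker ψ).subtype).map
        (g0 : LinearMap.ker ψ →ₗ[F] LinearMap.ker ψ) := by
  ext x
  rw [Submodule.mem_comap, Submodule.mem_map, Submodule.mem_map]
  constructor
  · rintro ⟨a, ha, hax⟩
    have hax' : g a = (x : V) := hax
    have hak : a ∈ LinearMap.ker ψ := by
      rw [LinearMap.mem_ker, ← h1, hax']
      exact x.2
    refine ⟨⟨a, hak⟩, ha, ?_⟩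
    apply Subtype.ext
    change ((g0 ⟨a, hak⟩ : LinearMap.ker ψ) : V) = x
    rw [← h2, ← hax']
  · rintro ⟨y, hy, hyx⟩
    refine ⟨(y : V), hy, ?_⟩
    change g (y : V) = (x : V)
    rw [h2]
    exact congrArg Subtype.val hyx

theorem not_le (g : V ≃ₗ[F] V) (h1 : ∀ x, ψ (g x) = ψ x) (A : Submodule F V)
    (hA : ¬ A ≤ LinearMap.ker ψ) : ¬ A.map (g : V →ₗ[F] V) ≤ LinearMap.ker ψ := by
  intro h
  apply hA
  intro a ha
  have h2 := h (Submodule.mem_map_of_mem ha)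
  rw [LinearMap.mem_ker] at h2 ⊢
  rw [← h1]
  exact h2

end

theorem t : Pool.Agent.Helper43.EV.PIB := by
  intro F _ _ V _ _ _ ψ z hz s hs a b
  have hle : ∀ v : ({X : Fl F V (a + 1) (b + 1) | ¬ X.1.1 ≤ LinearMap.ker ψ} :
      Set (Fl F V (a + 1) (b + 1))), ¬ v.1.1.2 ≤ LinearMap.ker ψ := fun v h =>
    v.2 (v.1.2.1.trans h)
  let π : ({X : Fl F V (a + 1) (b + 1) | ¬ X.1.1 ≤ LinearMap.ker ψ} :
      Set (Fl F V (a + 1) (b + 1))) → Fl F (LinearMap.ker ψ) a b := fun v =>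
    ⟨(v.1.1.1.comap (LinearMap.ker ψ).subtype, v.1.1.2.comap (LinearMap.ker ψ).subtype),
      Submodule.comap_mono v.1.2.1, by
        have h1 := (finrank_comap ψ z hz v.1.1.1).2 v.2
        have h2 := v.1.2.2.1
        change finrank F (v.1.1.1.comap (LinearMap.ker ψ).subtype) = a
        omega, by
        have h1 := (finrank_comap ψ z hz v.1.1.2).2 (hle v)
        have h2 := v.1.2.2.2
        change finrank F (v.1.1.2.comap (LinearMap.ker ψ).subtype) = b
        omega⟩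
  refine ⟨π, ?_, ?_⟩
  · rintro g ⟨w, hw⟩ v
    have h1 : ∀ x, ψ ((g : V ≃ₗ[F] V) x) = ψ x := by
      intro x
      have hw0 : ψ (w : V) = 0 := w.2
      rw [hw, map_add, map_smul, hw0, smul_zero, add_zero]
    have h2 : ∀ x : LinearMap.ker ψ, (g : V ≃ₗ[F] V) (x : V) =
        ((LinearEquiv.refl F (LinearMap.ker ψ) x : LinearMap.ker ψ) : V) := by
      intro x
      have hx0 : ψ (x : V) = 0 := x.2
      rw [hw, hx0, zero_smul, add_zero]
      rfl
    refine ⟨not_le ψ (g : V ≃ₗ[F] V) h1 v.1.1.1 v.2, ?_⟩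
    apply Subtype.ext
    apply Prod.ext
    · change (v.1.1.1.map ((g : V ≃ₗ[F] V) : V →ₗ[F] V)).comap (LinearMap.ker ψ).subtype =
        v.1.1.1.comap (LinearMap.ker ψ).subtype
      rw [comap_map ψ _ _ h1 h2]
      exact Submodule.map_id _
    · change (v.1.1.2.map ((g : V ≃ₗ[F] V) : V →ₗ[F] V)).comap (LinearMap.ker ψ).subtype =
        v.1.1.2.comap (LinearMap.ker ψ).subtype
      rw [comap_map ψ _ _ h1 h2]
      exact Submodule.map_id _
  · intro g v
    have h1 : ∀ x, ψ ((s g : V ≃ₗ[F] V) x) = ψ x := by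
      intro x
      have h0 : ψ ((((g : LinearMap.ker ψ ≃ₗ[F] LinearMap.ker ψ) (prj ψ z hz x) :
        LinearMap.ker ψ) : V)) = 0 :=
        LinearMap.mem_ker.1 ((g : LinearMap.ker ψ ≃ₗ[F] LinearMap.ker ψ) (prj ψ z hz x)).2
      rw [hs, map_add, map_smul, h0, hz, zero_add, smul_eq_mul, mul_one]
    have h2 : ∀ x : LinearMap.ker ψ, (s g : V ≃ₗ[F] V) (x : V) =
        (((g : LinearMap.ker ψ ≃ₗ[F] LinearMap.ker ψ) x : LinearMap.ker ψ) : V) := by
      intro x
      have hx0 : ψ (x : V) = 0 := x.2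
      rw [hs, hx0, zero_smul, add_zero, prj_mem]
    refine ⟨not_le ψ (s g : V ≃ₗ[F] V) h1 v.1.1.1 v.2, ?_⟩
    apply Subtype.ext
    apply Prod.ext
    · exact comap_map ψ _ _ h1 h2 v.1.1.1
    · exact comap_map ψ _ _ h1 h2 v.1.1.2

end Pool.Agent.Helper23.EV.PIB
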